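import Pool.Agent.Helper77.SO.St3

set_option autoImplicit false

namespace Pool.Agent.Helper97.SO.R3

open Equiv Equiv.Perm Pool.Agent.Helper35.PM Pool.Agent.Helper77.HY Pool.Agent.Helper77.OF4
open Pool.Agent.Helper77.SO

variable {V : Type} [Finite V] {G : SimpleGraph V} {R : Rot G}

theorem few (hNv : StNv) {X0 X W0 : Finset V} {v : V} (hX : X0 ⊆ X) (hd : dX G X v ≤ 3) :
    AFV R X0 W0 v := by
  by_contra hcon
  obtain ⟨h1, h2⟩ := hNv V G R X0 W0 v hcon
  have hdisj : Disjoint {u : V | u ∈ X0 ∧ G.Adj v u ∧ u ∈ W0} {u : V | u ∈ X0 ∧ G.Adj v u ∧ u ∉ W0} := by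
    rw [Set.disjoint_left]
    rintro u ⟨-, -, hu⟩ ⟨-, -, hu'⟩
    exact hu' hu
  have h3 := Set.ncard_union_eq hdisj (Set.toFinite _) (Set.toFinite _)
  have h4 : ({u : V | u ∈ X0 ∧ G.Adj v u ∧ u ∈ W0} ∪ {u : V | u ∈ X0 ∧ G.Adj v u ∧ u ∉ W0}).ncard ≤
      dX G X v := by
    refine Set.ncard_le_ncard ?_ (Set.toFinite _)
    rintro u (⟨h5, h6, -⟩ | ⟨h5, h6, -⟩)
    · exact ⟨hX h5, h6⟩
    · exact ⟨hX h5, h6⟩
  omega

theorem fewW (hNv : StNv) {X0 W0 : Finset V} {v : V}
    (hd : {u : V | u ∈ X0 ∧ G.Adj v u ∧ u ∈ W0}.ncard ≤ 1) : AFV R X0 W0 v := by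
  by_contra hcon
  have := (hNv V G R X0 W0 v hcon).1
  omega

theorem fewN (hNv : StNv) {X0 W0 : Finset V} {v : V}
    (hd : {u : V | u ∈ X0 ∧ G.Adj v u ∧ u ∉ W0}.ncard ≤ 1) : AFV R X0 W0 v := by
  by_contra hcon
  have := (hNv V G R X0 W0 v hcon).2
  omega

theorem ncard_le_one_of_subset_singleton {A : Set V} {a : V} (h : ∀ u ∈ A, u = a) : A.ncard ≤ 1 := by
  have : A ⊆ {a} := fun u hu => h u hu
  exact (Set.ncard_le_ncard this (Set.toFinite _)).trans (Set.ncard_singleton a).le

/-- adding the neighbours of `b` one after the other -/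
theorem addAll [DecidableEq V] (hNv : StNv) (hAdd : StAdd) {X X2 W2 N K : Finset V} {b : V} (z : V → V)
    (hg : Good R X2 W2) (hb : b ∈ X2) (hX2 : X2 ⊆ X) (hN : N ⊆ X) (hdis : ∀ x ∈ N, x ∉ X2)
    (hnb : ∀ x ∈ N, ∀ u ∈ X, G.Adj x u → u = b ∨ u = z x) (hz : ∀ x ∈ N, z x ∈ X2)
    (hzd : ∀ x ∈ N, dX G X (z x) ≤ 3) (hxd : ∀ x ∈ N, dX G X x ≤ 3)
    (hin : ∀ x ∈ N, x ∈ K → b ∉ W2 ∧ z x ∉ W2) (hout : ∀ x ∈ N, x ∉ K → b ∈ W2 ∨ z x ∈ W2)
    (hAF : b ∉ W2 → ∀ T ⊆ N, AFV R (X2 ∪ T) (W2 ∪ (T ∩ K)) b) :
    ∀ T ⊆ N, Good R (X2 ∪ T) (W2 ∪ (T ∩ K)) := by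
  intro T
  induction T using Finset.induction_on with
  | empty => intro _; simpa using hg
  | insert x T hxT ih =>
    intro hT
    have hxN : x ∈ N := hT (Finset.mem_insert_self _ _)
    have hTN : T ⊆ N := fun u hu => hT (Finset.mem_insert_of_mem hu)
    have hgc := ih hTN
    have hbN : b ∉ N := fun h => hdis b h hb
    have hzN : z x ∉ N := fun h => hdis _ h (hz x hxN)
    have hxX : x ∉ X2 ∪ T := by
      rw [Finset.mem_union]
      rintro (h | h)
      · exact hdis x hxN h
      · exact hxT h
    have hsub : insert x (X2 ∪ T) ⊆ X := by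
      intro u hu
      rcases Finset.mem_insert.1 hu with rfl | hu
      · exact hN hxN
      · rcases Finset.mem_union.1 hu with hu | hu
        · exact hX2 hu
        · exact hN (hTN hu)
    have hXe : X2 ∪ insert x T = insert x (X2 ∪ T) := by
      rw [Finset.union_insert]
    have hcurX : ∀ u ∈ X2 ∪ T, u ∈ X := fun u hu => hsub (Finset.mem_insert_of_mem hu)
    rw [hXe]
    by_cases hxK : x ∈ K
    · have hWe : W2 ∪ (insert x T ∩ K) = insert x (W2 ∪ (T ∩ K)) := by
        rw [Finset.insert_inter_of_mem hxK, Finset.union_insert]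
      rw [hWe]
      obtain ⟨i1, i2⟩ := hin x hxN hxK
      refine (hAdd V G R (X2 ∪ T) (W2 ∪ (T ∩ K)) x hxX hgc).1 ?_ ?_
      · intro v hv hadj
        have hvX : v ∈ X := hcurX v (hgc.1 hv)
        rcases Finset.mem_union.1 hv with hv2 | hv2
        · rcases hnb x hxN v hvX hadj with rfl | rfl
          · exact i1 hv2
          · exact i2 hv2
        · have hvN := hTN (Finset.mem_inter.1 hv2).1
          rcases hnb x hxN v hvX hadj with rfl | rfl
          · exact hbN hvN
          · exact hzN hvN
      · intro v hv hadj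
        rcases hnb x hxN v (hcurX v hv) hadj with rfl | rfl
        · have := hAF i1 (insert x T) hT
          rwa [hXe, hWe] at this
        · exact few hNv hsub (hzd x hxN)
    · have hWe : W2 ∪ (insert x T ∩ K) = W2 ∪ (T ∩ K) := by
        rw [Finset.insert_inter_of_notMem hxK]
      rw [hWe]
      refine (hAdd V G R (X2 ∪ T) (W2 ∪ (T ∩ K)) x hxX hgc).2 ?_ ?_ ?_
      · rcases hout x hxN hxK with h | h
        · refine ncard_le_one_of_subset_singleton (a := z x) ?_
          rintro u ⟨h1, h2, h3⟩
          rcases hnb x hxN u (hcurX u h1) h3 with rfl | rfl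
          · exact absurd (Finset.mem_union_left _ h) h2
          · rfl
        · refine ncard_le_one_of_subset_singleton (a := b) ?_
          rintro u ⟨h1, h2, h3⟩
          rcases hnb x hxN u (hcurX u h1) h3 with rfl | rfl
          · rfl
          · exact absurd (Finset.mem_union_left _ h) h2
      · intro v hv hvW hadj
        rcases hnb x hxN v (hcurX v hv) hadj with rfl | rfl
        · have := hAF (fun h => hvW (Finset.mem_union_left _ h)) (insert x T) hT
          rwa [hXe, hWe] at this
        · exact few hNv hsub (hzd x hxN)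
      · exact few hNv hsub (hxd x hxN)

theorem main (hNv : StNv) (hAcc : StAcc) (hAdd : StAdd) : StR3 := by
  intro V _ _ G R X b y hTF hbX hdb hd2 hd3 hsmall
  classical
  set N4 : Finset V := X.filter (fun u => G.Adj b u) with hN4
  have hN4m : ∀ u, u ∈ N4 ↔ u ∈ X ∧ G.Adj b u := fun u => by rw [hN4, Finset.mem_filter]
  have hcard : N4.card = 4 := by
    rw [← hdb, dX, ← Set.ncard_coe_finset]
    congr 1
    ext u
    simp [hN4m]
  -- the exceptional neighbour
  obtain ⟨x4, hx4, hx4y⟩ : ∃ x4 ∈ N4, ∀ x ∈ N4, x ≠ x4 → x ≠ y := by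
    by_cases hy : y ∈ N4
    · exact ⟨y, hy, fun x _ h => h⟩
    · obtain ⟨x4, hx4⟩ : N4.Nonempty := by
        rw [← Finset.card_pos, hcard]; norm_num
      exact ⟨x4, hx4, fun x hx _ h => hy (h ▸ hx)⟩
  set N : Finset V := N4.erase x4 with hN
  have hNcard : N.card = 3 := by rw [hN, Finset.card_erase_of_mem hx4, hcard]
  have hNm : ∀ u, u ∈ N ↔ u ≠ x4 ∧ u ∈ N4 := fun u => by rw [hN, Finset.mem_erase]
  -- the other neighbours
  have hz : ∀ x ∈ N4, ∃ w, w ∈ X ∧ G.Adj x w ∧ w ≠ b ∧ ∀ u ∈ X, G.Adj x u → u = b ∨ u = w := by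
    intro x hx
    obtain ⟨hxX, hadj⟩ := (hN4m x).1 hx
    have h2 := hd2 x hxX hadj
    rw [dX, Set.ncard_eq_two] at h2
    obtain ⟨p, q, hpq, hset⟩ := h2
    have hb' : b ∈ ({p, q} : Set V) := by rw [← hset]; exact ⟨hbX, hadj.symm⟩
    have hp : p ∈ X ∧ G.Adj x p := by
      have : p ∈ {u : V | u ∈ X ∧ G.Adj x u} := by rw [hset]; exact Or.inl rfl
      exact this
    have hq : q ∈ X ∧ G.Adj x q := by
      have : q ∈ {u : V | u ∈ X ∧ G.Adj x u} := by rw [hset]; exact Or.inr rfl
      exact this
    rcases hb' with rfl | hbq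
    · refine ⟨q, hq.1, hq.2, hpq.symm, fun u hu hadj' => ?_⟩
      have : u ∈ ({b, q} : Set V) := by rw [← hset]; exact ⟨hu, hadj'⟩
      exact this
    · have hbq' : b = q := hbq
      subst hbq'
      refine ⟨p, hp.1, hp.2, hpq, fun u hu hadj' => ?_⟩
      have : u ∈ ({p, b} : Set V) := by rw [← hset]; exact ⟨hu, hadj'⟩
      exact Or.symm this
  choose! z hzX hzadj hzb hznb using hz
  have hzN4 : ∀ x ∈ N4, z x ∉ N4 := by
    intro x hx h
    have h1 := (hN4m x).1 hx
    have h2 := (hN4m _).1 h
    exact hTF b x (z x) h1.2 (hzadj x hx) h2.2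
  have hbN4 : b ∉ N4 := fun h => G.irrefl ((hN4m b).1 h).2
  set X' : Finset V := X \ insert b N4 with hX'
  have hX'm : ∀ u, u ∈ X' ↔ u ∈ X ∧ u ≠ b ∧ u ∉ N4 := fun u => by
    rw [hX', Finset.mem_sdiff, Finset.mem_insert, not_or]
  have hX's : X' ⊂ X := by
    rw [Finset.ssubset_iff_of_subset (fun u hu => ((hX'm u).1 hu).1)]
    exact ⟨b, hbX, fun h => ((hX'm b).1 h).2.1 rfl⟩
  obtain ⟨W', hW'⟩ := hsmall X' hX's
  have hzX' : ∀ x ∈ N4, z x ∈ X' := fun x hx => (hX'm _).2 ⟨hzX x hx, hzb x hx, hzN4 x hx⟩
  have hNN4 : ∀ x ∈ N, x ∈ N4 := fun x hx => ((hNm x).1 hx).2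
  have hzd : ∀ x ∈ N, dX G X (z x) ≤ 3 := fun x hx =>
    hd3 x ((hN4m x).1 (hNN4 x hx)).1 ((hN4m x).1 (hNN4 x hx)).2 (hx4y x (hNN4 x hx) ((hNm x).1 hx).1)
      (z x) (hzX x (hNN4 x hx)) (hzadj x (hNN4 x hx)) (hzb x (hNN4 x hx))
  have hxd : ∀ x ∈ N4, dX G X x ≤ 3 := fun x hx => by
    rw [hd2 x ((hN4m x).1 hx).1 ((hN4m x).1 hx).2]; norm_num
  have hxX : ∀ x ∈ N4, x ∈ X := fun x hx => ((hN4m x).1 hx).1
  have hxX' : ∀ x ∈ N4, x ∉ X' := fun x hx h => ((hX'm x).1 h).2.2 hx
  have hbX' : b ∉ X' := fun h => ((hX'm b).1 h).2.1 rfl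
  have hxb : ∀ x ∈ N4, x ≠ b := fun x hx h => hbN4 (h ▸ hx)
  have hXb : ∀ u ∈ X', ¬ G.Adj b u := fun u hu h =>
    ((hX'm u).1 hu).2.2 ((hN4m u).2 ⟨((hX'm u).1 hu).1, h⟩)
  have hX'X : ∀ u ∈ X', u ∈ X := fun u hu => ((hX'm u).1 hu).1
  have hW'X' : ∀ u ∈ W', u ∈ X' := fun u hu => hW'.1 hu
  have hbW' : b ∉ W' := fun h => hbX' (hW'X' b h)
  have hnbX' : ∀ x ∈ N4, ∀ u ∈ X', G.Adj x u → u = z x := by
    intro x hx u hu hadj
    rcases hznb x hx u (hX'X u hu) hadj with rfl | h
    · exact absurd hu hbX'
    · exact h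
  have hx4d : dX G X x4 ≤ 3 := hxd x4 hx4
  have hsub4 : insert x4 X' ⊆ X := by
    intro u hu
    rcases Finset.mem_insert.1 hu with rfl | hu
    · exact hxX _ hx4
    · exact hX'X u hu
  have hsub4b : insert b (insert x4 X') ⊆ X := by
    intro u hu
    rcases Finset.mem_insert.1 hu with rfl | hu
    · exact hbX
    · exact hsub4 hu
  have hNX : N ⊆ X := fun u hu => hxX u (hNN4 u hu)
  have hb4 : b ∉ insert x4 X' := by
    rw [Finset.mem_insert]
    rintro (h | h)
    · exact hxb x4 hx4 h.symm
    · exact hbX' h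
  have hadj4 : ∀ u ∈ insert x4 X', G.Adj b u → u = x4 := by
    intro u hu h
    rcases Finset.mem_insert.1 hu with rfl | hu
    · rfl
    · exact absurd h (hXb u hu)
  have hdis4 : ∀ x ∈ N, x ∉ insert b (insert x4 X') := by
    intro x hx h
    rcases Finset.mem_insert.1 h with h | h
    · exact hxb x (hNN4 x hx) h
    · rcases Finset.mem_insert.1 h with h | h
      · exact ((hNm x).1 hx).1 h
      · exact hxX' x (hNN4 x hx) h
  have hXeq : insert b (insert x4 X') ∪ N = X := by
    ext u
    rw [Finset.mem_union]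
    constructor
    · rintro (h | h)
      · exact hsub4b h
      · exact hNX h
    · intro hu
      by_cases h1 : u = b
      · exact Or.inl (Finset.mem_insert.2 (Or.inl h1))
      by_cases h2 : u = x4
      · exact Or.inl (Finset.mem_insert_of_mem (Finset.mem_insert.2 (Or.inl h2)))
      by_cases h3 : u ∈ N4
      · exact Or.inr ((hNm u).2 ⟨h2, h3⟩)
      · exact Or.inl (Finset.mem_insert_of_mem (Finset.mem_insert_of_mem ((hX'm u).2 ⟨hu, h1, h3⟩)))
  have hnbN : ∀ x ∈ N, ∀ u ∈ X, G.Adj x u → u = b ∨ u = z x := fun x hx => hznb x (hNN4 x hx)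
  have hbadj : ∀ x ∈ N4, G.Adj b x := fun x hx => ((hN4m x).1 hx).2
  by_cases hA : z x4 ∈ W' ∨ AFV R (insert x4 X') W' (z x4)
  · -- case A
    have s1 : Good R (insert x4 X') W' := by
      refine (hAdd V G R X' W' x4 (hxX' x4 hx4) hW').2 ?_ ?_ ?_
      · refine ncard_le_one_of_subset_singleton (a := z x4) ?_
        rintro u ⟨h1, h2, h3⟩
        exact hnbX' x4 hx4 u h1 h3
      · intro v hv hvW hadj
        have hvz := hnbX' x4 hx4 v hv hadj
        subst hvz
        rcases hA with h | h
        · exact absurd h hvW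
        · exact h
      · exact few hNv hsub4 hx4d
    have s2 : Good R (insert b (insert x4 X')) (insert b W') := by
      refine (hAdd V G R (insert x4 X') W' b hb4 s1).1 ?_ ?_
      · intro v hv
        exact hXb v (hW'X' v hv)
      · intro v hv hadj
        have := hadj4 v hv hadj
        subst this
        exact few hNv hsub4b hx4d
    have s3 := addAll (G := G) (R := R) (X := X) (X2 := insert b (insert x4 X')) (W2 := insert b W') (N := N)
      (K := ∅) (b := b) hNv hAdd z s2 (Finset.mem_insert_self _ _) hsub4b hNX hdis4 hnbN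
      (fun x hx => Finset.mem_insert_of_mem (Finset.mem_insert_of_mem (hzX' x (hNN4 x hx))))
      hzd (fun x hx => hxd x (hNN4 x hx)) (fun x _ h => absurd h (Finset.notMem_empty _))
      (fun x _ _ => Or.inl (Finset.mem_insert_self _ _))
      (fun h => absurd (Finset.mem_insert_self _ _) h) N (Finset.Subset.refl _)
    rw [hXeq] at s3
    exact ⟨_, s3⟩
  · -- case B
    rw [not_or] at hA
    obtain ⟨hz4, hnA⟩ := hA
    have hAFz : AFV R X' W' (z x4) := hW'.2.2.2 (z x4) (hzX' x4 hx4) hz4
    have hacc := hAcc V G R X' W' (z x4) x4 (hxX' x4 hx4) hW'.1 (hzadj x4 hx4).symm hAFz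
    have hB : AFV R (insert x4 X') (insert x4 W') (z x4) := hacc.resolve_right hnA
    have s1 : Good R (insert x4 X') (insert x4 W') := by
      refine (hAdd V G R X' W' x4 (hxX' x4 hx4) hW').1 ?_ ?_
      · intro v hv hadj
        have := hnbX' x4 hx4 v (hW'X' v hv) hadj
        subst this
        exact hz4 hv
      · intro v hv hadj
        have := hnbX' x4 hx4 v hv hadj
        subst this
        exact hB
    have hbW4 : b ∉ insert x4 W' := by
      rw [Finset.mem_insert]
      rintro (h | h)
      · exact hxb x4 hx4 h.symm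
      · exact hbW' h
    have hW4 : ∀ u ∈ insert x4 W', G.Adj b u → u = x4 := by
      intro u hu h
      rcases Finset.mem_insert.1 hu with rfl | hu
      · rfl
      · exact absurd h (hXb u (hW'X' u hu))
    set K : Finset V := N.filter (fun x => z x ∉ W') with hK
    have hKm : ∀ x, x ∈ K ↔ x ∈ N ∧ z x ∉ W' := fun x => by rw [hK, Finset.mem_filter]
    by_cases hK1 : K.card = 1
    · -- B2
      obtain ⟨j, hj⟩ := Finset.card_eq_one.1 hK1
      have hjK : j ∈ K := by rw [hj]; exact Finset.mem_singleton_self _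
      have hjN : j ∈ N := ((hKm j).1 hjK).1
      have hjN4 := hNN4 j hjN
      have hj4 : j ∉ insert x4 X' := fun h => hdis4 j hjN (Finset.mem_insert_of_mem h)
      have hsubj : insert j (insert x4 X') ⊆ X := by
        intro u hu
        rcases Finset.mem_insert.1 hu with rfl | hu
        · exact hxX _ hjN4
        · exact hsub4 hu
      have s2 : Good R (insert j (insert x4 X')) (insert x4 W') := by
        refine (hAdd V G R (insert x4 X') (insert x4 W') j hj4 s1).2 ?_ ?_ ?_
        · refine ncard_le_one_of_subset_singleton (a := z j) ?_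
          rintro u ⟨h1, h2, h3⟩
          rcases hznb j hjN4 u (hsub4 h1) h3 with rfl | h
          · exact absurd h1 hb4
          · exact h
        · intro v hv hvW hadj
          rcases hznb j hjN4 v (hsub4 hv) hadj with rfl | h
          · exact absurd hv hb4
          · subst h
            exact few hNv hsubj (hzd j hjN)
        · exact few hNv hsubj (hxd j hjN4)
      have hbj : b ∉ insert j (insert x4 X') := by
        rw [Finset.mem_insert]
        rintro (h | h)
        · exact hxb j hjN4 h.symm
        · exact hb4 h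
      have hsubjb : insert b (insert j (insert x4 X')) ⊆ X := by
        intro u hu
        rcases Finset.mem_insert.1 hu with rfl | hu
        · exact hbX
        · exact hsubj hu
      have s3 : Good R (insert b (insert j (insert x4 X'))) (insert x4 W') := by
        refine (hAdd V G R (insert j (insert x4 X')) (insert x4 W') b hbj s2).2 ?_ ?_ ?_
        · refine ncard_le_one_of_subset_singleton (a := j) ?_
          rintro u ⟨h1, h2, h3⟩
          rcases Finset.mem_insert.1 h1 with h | h
          · exact h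
          · have := hadj4 u h h3
            subst this
            exact absurd (Finset.mem_insert_self _ _) h2
        · intro v hv hvW hadj
          rcases Finset.mem_insert.1 hv with h | h
          · subst h
            exact few hNv hsubjb (hxd v hjN4)
          · have := hadj4 v h hadj
            subst this
            exact absurd (Finset.mem_insert_self _ _) hvW
        · refine fewW hNv (ncard_le_one_of_subset_singleton (a := x4) ?_)
          rintro u ⟨h1, h2, h3⟩
          exact hW4 u h3 h2
      have hNe : N.erase j ⊆ X := fun u hu => hNX (Finset.mem_of_mem_erase hu)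
      have s4 := addAll (G := G) (R := R) (X := X) (X2 := insert b (insert j (insert x4 X')))
        (W2 := insert x4 W') (N := N.erase j) (K := ∅) (b := b) hNv hAdd z s3
        (Finset.mem_insert_self _ _) hsubjb hNe
        (by
          intro x hx h
          have hxN := Finset.mem_of_mem_erase hx
          have hxj := Finset.ne_of_mem_erase hx
          rcases Finset.mem_insert.1 h with h | h
          · exact hxb x (hNN4 x hxN) h
          · rcases Finset.mem_insert.1 h with h | h
            · exact hxj h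
            · exact hdis4 x hxN (Finset.mem_insert_of_mem h))
        (fun x hx => hnbN x (Finset.mem_of_mem_erase hx))
        (fun x hx => Finset.mem_insert_of_mem (Finset.mem_insert_of_mem (Finset.mem_insert_of_mem
          (hzX' x (hNN4 x (Finset.mem_of_mem_erase hx))))))
        (fun x hx => hzd x (Finset.mem_of_mem_erase hx))
        (fun x hx => hxd x (hNN4 x (Finset.mem_of_mem_erase hx)))
        (fun x _ h => absurd h (Finset.notMem_empty _))
        (by
          intro x hx _
          right
          by_contra hcon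
          have hxN := Finset.mem_of_mem_erase hx
          have hxK : x ∈ K := (hKm x).2 ⟨hxN, fun h => hcon (Finset.mem_insert_of_mem h)⟩
          rw [hj, Finset.mem_singleton] at hxK
          exact Finset.ne_of_mem_erase hx hxK)
        (by
          intro _ T hT
          refine fewW hNv (ncard_le_one_of_subset_singleton (a := x4) ?_)
          rintro u ⟨h1, h2, h3⟩
          rw [Finset.inter_empty, Finset.union_empty] at h3
          exact hW4 u h3 h2) (N.erase j) (Finset.Subset.refl _)
      have hXeq2 : insert b (insert j (insert x4 X')) ∪ N.erase j = X := by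
        rw [← hXeq]
        ext u
        simp only [Finset.mem_union, Finset.mem_insert, Finset.mem_erase]
        constructor
        · rintro ((h | h | h | h) | h)
          · exact Or.inl (Or.inl h)
          · exact Or.inr (h ▸ hjN)
          · exact Or.inl (Or.inr (Or.inl h))
          · exact Or.inl (Or.inr (Or.inr h))
          · exact Or.inr h.2
        · rintro ((h | h | h) | h)
          · exact Or.inl (Or.inl h)
          · exact Or.inl (Or.inr (Or.inr (Or.inl h)))
          · exact Or.inl (Or.inr (Or.inr (Or.inr h)))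
          · by_cases huj : u = j
            · exact Or.inl (Or.inr (Or.inl huj))
            · exact Or.inr ⟨huj, h⟩
      rw [hXeq2] at s4
      exact ⟨_, s4⟩
    · -- B1
      have s2 : Good R (insert b (insert x4 X')) (insert x4 W') := by
        refine (hAdd V G R (insert x4 X') (insert x4 W') b hb4 s1).2 ?_ ?_ ?_
        · refine ncard_le_one_of_subset_singleton (a := x4) ?_
          rintro u ⟨h1, h2, h3⟩
          exact hadj4 u h1 h3
        · intro v hv hvW hadj
          have := hadj4 v hv hadj
          subst this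
          exact absurd (Finset.mem_insert_self _ _) hvW
        · refine fewW hNv (ncard_le_one_of_subset_singleton (a := x4) ?_)
          rintro u ⟨h1, h2, h3⟩
          exact hW4 u h3 h2
      have s3 := addAll (G := G) (R := R) (X := X) (X2 := insert b (insert x4 X')) (W2 := insert x4 W')
        (N := N) (K := K) (b := b) hNv hAdd z s2 (Finset.mem_insert_self _ _) hsub4b hNX hdis4 hnbN
        (fun x hx => Finset.mem_insert_of_mem (Finset.mem_insert_of_mem (hzX' x (hNN4 x hx))))
        hzd (fun x hx => hxd x (hNN4 x hx))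
        (by
          intro x hx hxK
          refine ⟨hbW4, ?_⟩
          rw [Finset.mem_insert]
          rintro (h | h)
          · exact hzN4 x (hNN4 x hx) (h ▸ hx4)
          · exact ((hKm x).1 hxK).2 h)
        (by
          intro x hx hxK
          right
          by_contra hcon
          exact hxK ((hKm x).2 ⟨hx, fun h => hcon (Finset.mem_insert_of_mem h)⟩))
        (by
          intro _ T hT
          rcases Nat.lt_or_ge K.card 1 with h0 | h0
          · have hK0 : K = ∅ := Finset.card_eq_zero.1 (by omega)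
            refine fewW hNv (ncard_le_one_of_subset_singleton (a := x4) ?_)
            rintro u ⟨h1, h2, h3⟩
            rw [hK0, Finset.inter_empty, Finset.union_empty] at h3
            exact hW4 u h3 h2
          · have hK2 : 2 ≤ K.card := by omega
            have hKN : K ⊆ N := Finset.filter_subset _ _
            have hcd : (N \ K).card ≤ 1 := by
              rw [Finset.card_sdiff_of_subset hKN, hNcard]; omega
            refine fewN hNv ?_
            refine le_trans ?_ hcd
            rw [← Set.ncard_coe_finset]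
            refine Set.ncard_le_ncard ?_ (Set.toFinite _)
            rintro u ⟨h1, h2, h3⟩
            rw [Finset.mem_union, not_or] at h3
            rcases Finset.mem_union.1 h1 with h | h
            · rcases Finset.mem_insert.1 h with rfl | h
              · exact absurd h2 G.irrefl
              · have := hadj4 u h h2
                subst this
                exact absurd (Finset.mem_insert_self _ _) h3.1
            · rw [Finset.mem_coe, Finset.mem_sdiff]
              exact ⟨hT h, fun hk => h3.2 (Finset.mem_inter.2 ⟨h, hk⟩)⟩)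
        N (Finset.Subset.refl _)
      rw [hXeq] at s3
      exact ⟨_, s3⟩

end Pool.Agent.Helper97.SO.R3
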